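import Mathlib

namespace Pool.Agent.Results.MP_acd7ab_co.Counter

open Equiv

/-- For all distinct members `σ, π`, the permutation `σ π⁻¹` has even order. -/
def ECI {n : ℕ} (F : Finset (Perm (Fin n))) : Prop :=
  ∀ σ ∈ F, ∀ π ∈ F, σ ≠ π → Even (orderOf (σ * π⁻¹))

/-- An even-cycle-intersecting family of the largest size. -/
def Extremal {n : ℕ} (F : Finset (Perm (Fin n))) : Prop :=
  ECI F ∧ ∀ G : Finset (Perm (Fin n)), ECI G → G.card ≤ F.card

/-- A double-translate of a Sylow 2-subgroup. -/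
def DT {n : ℕ} (F : Finset (Perm (Fin n))) : Prop :=
  ∃ (P : Sylow 2 (Perm (Fin n))) (σ π : Perm (Fin n)), ∀ x, x ∈ F ↔ ∃ g ∈ P, x = σ * g * π

def dig (l : List ℕ) (i : Fin 32) (x : Fin 7) : Fin 7 :=
  ⟨l.getD i 0 / 8 ^ x.1 % 8 % 7, Nat.mod_lt _ (by decide)⟩

def A : List ℕ := [993601, 941122, 1446130, 944720, 1515745, 1443022, 401779, 361774, 215642,
  445634, 452816, 820582, 1119790, 1359106, 1369872, 1360086, 1401036, 1154370, 958769, 1089781,
  1172304, 1417332, 1213534, 158361, 43932, 877380, 836934, 1615404, 681513, 924994, 72478,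
  476714]

def B : List ℕ := [1391873, 941073, 480291, 1170512, 1512707, 218316, 348467, 43764, 1425942,
  967729, 1225840, 72940, 59234, 993321, 1255016, 214123, 1246539, 879137, 437507, 288043,
  1141336, 461587, 189140, 1168006, 623406, 1117529, 85225, 1607466, 1103746, 875553, 107366,
  1361458]

theorem inv1 : ∀ i x, dig B i (dig A i x) = x := by decide +kernel

theorem inv2 : ∀ i x, dig A i (dig B i x) = x := by decide +kernel

def p (i : Fin 32) : Perm (Fin 7) := ⟨dig A i, dig B i, inv1 i, inv2 i⟩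

theorem key : ∀ i j : Fin 32, i ≠ j →
    ∃ x, (fun y => dig A i (dig B j y))^[3] x ≠ x ∧ (fun y => dig A i (dig B j y))^[12] x = x := by
  decide +kernel

theorem pw (i j : Fin 32) (h : i ≠ j) : (p i * (p j)⁻¹) ^ 315 ≠ 1 := fun e => by
  obtain ⟨x, hx, hy⟩ := key i j h
  have := congrArg (fun g : Perm (Fin 7) => g x) e
  simp only [Perm.coe_pow] at this
  exact hx (Function.IsPeriodicPt.gcd (m := 315) (n := 12) this hy)

theorem fam : ∃ F : Finset (Perm (Fin 7)), ECI F ∧ F.card = 32 := by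
  refine ⟨Finset.univ.image p, ?_, ?_⟩
  · simp only [ECI, Finset.forall_mem_image]
    intro i _ j _ h
    by_contra o
    refine pw i j (fun e => h (congrArg p e)) (orderOf_dvd_iff_pow_eq_one.1 ?_)
    have d : orderOf (p i * (p j)⁻¹) ∣ 315 * 2 ^ 4 := by
      have := orderOf_dvd_card (x := p i * (p j)⁻¹)
      rwa [Fintype.card_perm, Fintype.card_fin] at this
    exact Nat.Coprime.dvd_of_dvd_mul_right
      (Nat.Coprime.pow_right _ (Nat.coprime_two_right.2 (Nat.not_even_iff_odd.1 o))) d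
  · rw [Finset.card_image_of_injective, Finset.card_univ, Fintype.card_fin]
    intro i j e
    by_contra h
    exact pw i j h (by rw [e, mul_inv_cancel, one_pow])

theorem syl (P : Sylow 2 (Perm (Fin 7))) : Nat.card P = 16 := by
  rw [P.card_eq_multiplicity, Nat.card_perm, Nat.card_fin]
  have : (Nat.factorial 7).factorization 2 = 4 := by
    rw [Nat.factorization_def _ Nat.prime_two, show Nat.factorial 7 = 2 ^ 4 * 315 by decide,
      padicValNat.mul (by decide) (by decide), padicValNat.prime_pow,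
      padicValNat.eq_zero_of_not_dvd (by decide)]
  rw [this]
  rfl

theorem le {n : ℕ} (F : Finset (Perm (Fin n))) (P : Sylow 2 (Perm (Fin n))) (σ π : Perm (Fin n))
    (e : ∀ x, x ∈ F ↔ ∃ g ∈ P, x = σ * g * π) : F.card ≤ Nat.card P := by
  rw [← Nat.card_eq_finsetCard]
  refine Nat.card_le_card_of_injective (fun x => ⟨σ⁻¹ * x.1 * π⁻¹, ?_⟩) fun x y q => ?_
  · obtain ⟨g, u, v⟩ := (e x).1 x.2
    rw [v, show σ⁻¹ * (σ * g * π) * π⁻¹ = g by group]
    exact u
  · exact Subtype.ext (mul_left_cancel (mul_right_cancel (congrArg Subtype.val q)))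

theorem result : (∃ F : Finset (Perm (Fin 7)), ECI F ∧ F.card = 32) ∧
    (∀ P : Sylow 2 (Perm (Fin 7)), Nat.card P = 16) ∧
    (∀ F : Finset (Perm (Fin 7)), Extremal F → ¬ DT F) ∧
    ¬ ∀ n ≥ 2, ∀ F : Finset (Perm (Fin n)), Extremal F ↔ DT F := by
  obtain ⟨G, g1, g2⟩ := fam
  have k : ∀ F : Finset (Perm (Fin 7)), Extremal F → ¬ DT F := by
    rintro F h ⟨P, σ, π, e⟩
    have a := h.2 G g1
    have b := le F P σ π e
    rw [syl] at b
    omega
  refine ⟨fam, syl, k, fun H => ?_⟩
  classical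
  obtain ⟨F, f1, f2⟩ := Finset.exists_max_image
    (Finset.univ.filter fun F : Finset (Perm (Fin 7)) => ECI F) Finset.card ⟨G, by simpa using g1⟩
  have x : Extremal F := ⟨by simpa using f1, fun G h => f2 G (by simpa using h)⟩
  exact k F x ((H 7 (by decide) F).1 x)

end Pool.Agent.Results.MP_acd7ab_co.Counter
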